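import Pool.Agent.Helper22.TW.Stmts

/-!
# NSQ: products of distinct linear factors are not squares over the constants
-/

set_option autoImplicit false

namespace Pool.Agent.Helper22.TW

open Pool.Agent.Helper14.BSC Polynomial

/-- a product of distinct linear factors times a square is a square only if it is empty -/
lemma nsq_poly {K : Type} [Field K] (R : Finset K) (A B : K[X]) (hB : B ≠ 0)
    (h : (∏ v ∈ R, (X - C v)) * B ^ 2 = A ^ 2) : R = ∅ := by
  classical
  by_contra hR
  obtain ⟨v, hv⟩ := Finset.nonempty_of_ne_empty hR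
  have hP : (∏ v ∈ R, (X - C v)) ≠ 0 := Finset.prod_ne_zero_iff.2 fun a _ => X_sub_C_ne_zero a
  have h1 : (∏ v ∈ R, (X - C v)) * B ^ 2 ≠ 0 := mul_ne_zero hP (pow_ne_zero 2 hB)
  have h2 : ((∏ v ∈ R, (X - C v)) * B ^ 2).roots.count v = (A ^ 2).roots.count v := by rw [h]
  rw [roots_mul h1, roots_pow, roots_pow, roots_prod_X_sub_C, Multiset.count_add,
    Multiset.count_nsmul, Multiset.count_nsmul, Multiset.count_eq_one_of_mem R.nodup hv] at h2
  omega

theorem st_NSQ (h1 : ST_FFC) (h2 : ST_TRB) : ST_NSQ := by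
  intro F k Ω _ _ _ _ _ _ _ _ _ t hgen D R z hz hprod
  have hv : ∀ v : Acl F Ω, IsAlgebraic k (v : Ω) := fun v =>
    (mem_algebraicClosure_iff'.1 v.2).isAlgebraic.tower_top k
  have hz2 : IsAlgebraic k (z ^ 2) := by
    rw [← hprod]
    have hmem : ∏ v ∈ R, (algebraMap k Ω t - (v : Ω)) ∈ algebraicClosure k Ω := by
      refine prod_mem fun v _ => ?_
      refine sub_mem (IntermediateField.algebraMap_mem _ t) ?_
      rw [mem_algebraicClosure_iff]
      exact hv v
    exact mem_algebraicClosure_iff.1 hmem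
  have hza : IsAlgebraic k z := IsAlgebraic.of_pow two_pos hz2
  have hzm : z ∈ algebraicClosure k Ω := mem_algebraicClosure_iff.2 hza
  have hzF : (⟨z, hzm⟩ : Acl k Ω) ∈ FF (KS F k Ω) := coe_mem_NN.1 hz
  obtain ⟨A, B, hB, hAB⟩ := h1 F k Ω t hgen ⟨z, hzm⟩ hzF
  have hAB' : z * aeval (algebraMap k Ω t) B = aeval (algebraMap k Ω t) A := hAB
  have hP : aeval (algebraMap k Ω t) (∏ v ∈ R, (X - C v)) = z ^ 2 := by
    rw [map_prod, ← hprod]
    refine Finset.prod_congr rfl fun v _ => ?_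
    rw [map_sub, aeval_X, aeval_C]
    rfl
  by_contra hR
  have hne : (∏ v ∈ R, (X - C v)) * B ^ 2 - A ^ 2 ≠ 0 := by
    intro h0
    exact hR (nsq_poly R A B hB (sub_eq_zero.1 h0))
  refine h2 F k Ω t hgen _ hne ?_
  rw [map_sub, map_mul, map_pow, map_pow, hP, ← hAB']
  ring

end Pool.Agent.Helper22.TW
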